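import Pool.Agent.Q151.Ord3.PC

/-!
Main argument for `MP_b7123c_al`.
-/

open scoped commutatorElement

namespace Q151.Ord3

/-- Lemma T: an orderable group with `G''` abelian and without proper normal relatively convex
subgroups is abelian. -/
theorem lemT {Q : Type*} [Group Q] {P0 : Set Q} (h0 : PC P0 ⊥)
    (huniq : ∀ (P : Set Q) (C : Subgroup Q), PC P C → C = ⊥ ∨ C = ⊤)
    (h3 : ∀ x ∈ ⁅commutator Q, commutator Q⁆, ∀ y ∈ ⁅commutator Q, commutator Q⁆, x * y = y * x) :
    ∀ x y : Q, x * y = y * x := by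
  obtain ⟨P, C, hPC, hC⟩ := exists_isol (commutator Q) le_rfl
  have hCc : ∀ x y : Q, ⁅x, y⁆ ∈ commutator Q := fun x y =>
    Subgroup.commutator_mem_commutator (Subgroup.mem_top _) (Subgroup.mem_top _)
  rcases huniq P C hPC with rfl | rfl
  · intro x y
    have h1 : ⁅x, y⁆ ∈ (⊥ : Subgroup Q) := (hC _).2 ⟨1, one_pos, by rw [pow_one]; exact hCc x y⟩
    rw [Subgroup.mem_bot, commutatorElement_eq_one_iff_mul_comm] at h1
    exact h1
  · obtain ⟨lo, hl, hr⟩ := h0.exists_linearOrder
    have hHP : HP (⊤ : Subgroup Q) := by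
      intro u _ hu x _
      obtain ⟨D, ⟨P', hP'⟩, huD, hD⟩ := exists_dom u
      rcases huniq P' D hP' with rfl | rfl
      · exact absurd (Subgroup.mem_bot.mp huD) hu
      · exact hD x (Subgroup.mem_top _)
    have hcom : commutator Q = ⁅(⊤ : Subgroup Q), ⊤⁆ := rfl
    -- J centralizes Q'
    have hJ : ∀ b ∈ ⁅commutator Q, commutator Q⁆, ∀ l ∈ commutator Q, b * l = l * b := by
      have := cent_MM (M := ⊤) (B := ⁅commutator Q, commutator Q⁆) inferInstance inferInstance
        le_top hHP (Subgroup.commutator_le_left _ _) h3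
      rw [hcom]
      rw [hcom] at this
      exact this
    have hQ' : ∀ b ∈ commutator Q, ∀ l ∈ commutator Q, b * l = l * b := by
      have := cent_MM (M := ⊤) (B := commutator Q) inferInstance inferInstance
        le_top hHP le_rfl (fun b hb l hl => (hJ l hl b hb).symm)
      exact this
    have hroot : ∀ (a x : Q) (n : ℕ), 0 < n → a ^ n * x = x * a ^ n → a * x = x * a := by
      intro a x n hn h
      have h1 : (x * a * x⁻¹) ^ n = a ^ n := by
        rw [conj_pow, ← h]; group
      have h2 : x * a * x⁻¹ = a := by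
        rcases lt_trichotomy (x * a * x⁻¹) a with hlt | heq | hgt
        · exact absurd h1 (pow_lt_pow_left' hn.ne' hlt).ne
        · exact heq
        · exact absurd h1 (pow_lt_pow_left' hn.ne' hgt).ne'
      calc a * x = (x * a * x⁻¹) * x := by rw [h2]
        _ = x * a := by group
    intro x y
    obtain ⟨m, hm, hxm⟩ := (hC x).1 (Subgroup.mem_top _)
    obtain ⟨n, hn, hyn⟩ := (hC y).1 (Subgroup.mem_top _)
    have h1 := hQ' _ hxm _ hyn
    have h2 := hroot x _ m hm h1
    exact (hroot y x n hn h2.symm).symm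

section Act

variable {G : Type*} [Group G] (N : Subgroup G) [N.Normal]

/-- class of an element of `N` in the additive abelianization -/
def cls (x : N) : Additive (Abelianization N) := Additive.ofMul (Abelianization.of x)

/-- the conjugation action on the abelianization of `N` -/
def actHom : G →* AddMonoid.End (Additive (Abelianization N)) where
  toFun g := MonoidHom.toAdditive (Abelianization.map (MulAut.conjNormal g : MulAut N).toMonoidHom)
  map_one' := by
    ext x
    induction x using QuotientGroup.induction_on with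
    | H x =>
      change Additive.ofMul (Abelianization.of (MulAut.conjNormal (1 : G) x)) = cls N x
      rw [map_one]; rfl
  map_mul' g h := by
    ext x
    induction x using QuotientGroup.induction_on with
    | H x =>
      change Additive.ofMul (Abelianization.of (MulAut.conjNormal (g * h) x)) =
        Additive.ofMul (Abelianization.of (MulAut.conjNormal g (MulAut.conjNormal h x)))
      rw [map_mul]; rfl

theorem actHom_cls (g : G) (x : N) : actHom N g (cls N x) = cls N (MulAut.conjNormal g x) := rfl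

theorem cls_surj (v : Additive (Abelianization N)) : ∃ x, cls N x = v := by
  induction v using QuotientGroup.induction_on with
  | H x => exact ⟨x, rfl⟩

theorem cls_mul (x y : N) : cls N (x * y) = cls N x + cls N y := by
  change Additive.ofMul (Abelianization.of (x * y)) = _
  rw [map_mul]; rfl

theorem cls_inv (x : N) : cls N x⁻¹ = -cls N x := by
  change Additive.ofMul (Abelianization.of x⁻¹) = _
  rw [map_inv]; rfl

theorem cls_pow (x : N) (m : ℕ) : cls N (x ^ m) = m • cls N x := by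
  change Additive.ofMul (Abelianization.of (x ^ m)) = _
  rw [map_pow]; rfl

theorem cls_one : cls N 1 = 0 := by
  change Additive.ofMul (Abelianization.of (1 : N)) = _
  rw [map_one]; rfl

theorem cls_eq {x y : N} (h : cls N x = cls N y) : ((x⁻¹ * y : N) : G) ∈ ⁅N, N⁆ := by
  have h1 : Abelianization.of (x⁻¹ * y) = 1 := by
    have h' : Abelianization.of x = Abelianization.of y := h
    rw [map_mul, map_inv, h', inv_mul_cancel]
  have h2 : x⁻¹ * y ∈ commutator N := by
    rw [← Abelianization.ker_of]; exact h1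
  rw [← Subgroup.map_subtype_commutator]
  exact ⟨_, h2, rfl⟩

theorem actHom_mem {n : G} (hn : n ∈ N) : actHom N n = 1 := by
  refine DFunLike.ext (actHom N n) 1 ?_
  intro v
  obtain ⟨x, rfl⟩ := cls_surj N v
  rw [actHom_cls]
  have : MulAut.conjNormal n x = ⟨n, hn⟩ * x * ⟨n, hn⟩⁻¹ := by
    apply Subtype.ext
    rw [MulAut.conjNormal_apply]; rfl
  rw [this, cls_mul, cls_mul, cls_inv, add_right_comm, add_neg_cancel, zero_add]
  rfl

theorem actHom_comm (hN : commutator G ≤ N) (g h : G) :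
    actHom N g * actHom N h = actHom N h * actHom N g := by
  rw [← map_mul, ← map_mul]
  have e : g * h = ⁅g, h⁆ * (h * g) := by rw [commutatorElement_def]; group
  rw [e, map_mul _ ⁅g, h⁆, actHom_mem N (hN (Subgroup.commutator_mem_commutator
    (Subgroup.mem_top _) (Subgroup.mem_top _))), one_mul]

end Act

/-- Main theorem, cone version. -/
theorem main {G : Type*} [Group G] {P0 PN : Set G} {N : Subgroup G} (h0 : PC P0 ⊥) (hN : PC PN N)
    (hNb : N ≠ ⊥) (hNt : N ≠ ⊤)
    (huniq : ∀ (P : Set G) (C : Subgroup G), PC P C → C = ⊥ ∨ C = N ∨ C = ⊤)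
    (h3 : derivedSeries G 3 = ⊥) :
    ∀ x ∈ commutator G, ∀ y ∈ commutator G, x * y = y * x := by
  haveI hNn : N.Normal := hN.normal
  -- J abelian
  have habel : ∀ {H : Type _} [Group H], derivedSeries H 3 = ⊥ →
      ∀ x ∈ ⁅commutator H, commutator H⁆, ∀ y ∈ ⁅commutator H, commutator H⁆, x * y = y * x := by
    intro H _ hH x hx y hy
    have h1 : ⁅x, y⁆ ∈ derivedSeries H 3 := by
      rw [derivedSeries_succ, derivedSeries_succ, derivedSeries_one]
      exact Subgroup.commutator_mem_commutator hx hy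
    rw [hH, Subgroup.mem_bot, commutatorElement_eq_one_iff_mul_comm] at h1
    exact h1
  have hJJ := habel h3
  -- Step 1 : G' ≤ N
  have hGN : commutator G ≤ N := by
    have hQ : ∀ x y : G ⧸ N, x * y = y * x := by
      have hmk : ∀ x : G, (QuotientGroup.mk' N x = 1 ↔ x ∈ N) := fun x => by
        rw [QuotientGroup.mk'_apply, QuotientGroup.eq_one_iff]
      refine lemT (P0 := (QuotientGroup.mk' N) '' PN) ⟨?_, ?_, ?_, ?_⟩ ?_ ?_
      · rintro _ ⟨x, hx, rfl⟩ _ ⟨y, hy, rfl⟩
        exact ⟨x * y, hN.mul x hx y hy, map_mul _ _ _⟩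
      · rintro g _ ⟨x, hx, rfl⟩
        obtain ⟨g, rfl⟩ := QuotientGroup.mk'_surjective N g
        exact ⟨g * x * g⁻¹, hN.conj g x hx, by rw [map_mul, map_mul, map_inv]⟩
      · intro x
        obtain ⟨x, rfl⟩ := QuotientGroup.mk'_surjective N x
        rcases hN.total x with h | h
        · exact Or.inl ⟨x, h, rfl⟩
        · exact Or.inr ⟨x⁻¹, h, map_inv _ _⟩
      · intro x
        obtain ⟨x, rfl⟩ := QuotientGroup.mk'_surjective N x
        rw [Subgroup.mem_bot]
        constructor
        · rintro ⟨⟨y, hy, ey⟩, ⟨z, hz, ez⟩⟩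
          rw [hmk]
          -- y = x n, z = x⁻¹ n'
          have hy' : y⁻¹ * x ∈ N := by rw [← hmk, map_mul, map_inv, ey, inv_mul_cancel]
          have hz' : z⁻¹ * x⁻¹ ∈ N := by rw [← hmk, map_mul, map_inv, ez, map_inv, inv_inv, mul_inv_cancel]
          refine (hN.ker x).1 ⟨?_, ?_⟩
          · have := hN.mul _ hy _ (hN.sub _ hy')
            rwa [mul_inv_cancel_left] at this
          · have := hN.mul _ hz _ (hN.sub _ hz')
            rwa [mul_inv_cancel_left] at this
        · intro h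
          rw [hmk] at h
          exact ⟨⟨x, hN.sub _ h, rfl⟩, ⟨x⁻¹, hN.sub _ (N.inv_mem h), map_inv _ _⟩⟩
      · intro P C hPC
        have hpull : PC ((QuotientGroup.mk' N) ⁻¹' P) (C.comap (QuotientGroup.mk' N)) := by
          refine ⟨?_, ?_, ?_, ?_⟩
          · intro x hx y hy
            change QuotientGroup.mk' N (x * y) ∈ P
            rw [map_mul]; exact hPC.mul _ hx _ hy
          · intro g x hx
            change QuotientGroup.mk' N (g * x * g⁻¹) ∈ P
            rw [map_mul, map_mul, map_inv]; exact hPC.conj _ _ hx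
          · intro x
            change QuotientGroup.mk' N x ∈ P ∨ QuotientGroup.mk' N x⁻¹ ∈ P
            rw [map_inv]; exact hPC.total _
          · intro x
            change (QuotientGroup.mk' N x ∈ P ∧ QuotientGroup.mk' N x⁻¹ ∈ P) ↔ _
            rw [map_inv]; exact hPC.ker _
        have hNle : N ≤ C.comap (QuotientGroup.mk' N) := by
          intro n hn
          rw [Subgroup.mem_comap, (hmk n).2 hn]; exact C.one_mem
        rcases huniq _ _ hpull with h | h | h
        · exfalso; apply hNb; rw [h] at hNle; exact le_bot_iff.mp hNle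
        · left
          rw [eq_bot_iff]
          intro q hq
          obtain ⟨x, rfl⟩ := QuotientGroup.mk'_surjective N q
          have hx : x ∈ C.comap (QuotientGroup.mk' N) := hq
          rw [h] at hx
          rw [Subgroup.mem_bot, hmk]; exact hx
        · right
          rw [eq_top_iff]
          intro q _
          obtain ⟨x, rfl⟩ := QuotientGroup.mk'_surjective N q
          have hx : x ∈ C.comap (QuotientGroup.mk' N) := by rw [h]; exact Subgroup.mem_top _
          exact hx
      · apply habel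
        rw [← map_derivedSeries_eq (QuotientGroup.mk'_surjective N) 3, h3, Subgroup.map_bot]
    have : commutator G ≤ (QuotientGroup.mk' N).ker := by
      rw [commutator_def, Subgroup.commutator_le]
      intro x _ y _
      rw [MonoidHom.mem_ker, map_commutatorElement, commutatorElement_eq_one_iff_mul_comm]
      exact hQ _ _
    rwa [QuotientGroup.ker_mk'] at this
  -- Step 2 : every element of N satisfies a positive relation, or G' abelian
  have hφ := actHom_comm N hGN
  obtain ⟨S, Sadd, Sφ, Stot, Sker⟩ := exists_cone (φ := actHom N) hφ ⊥ (by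
    intro g x hx
    rw [AddSubgroup.mem_bot] at hx ⊢
    rw [hx, map_zero])
  obtain ⟨C, hC⟩ : ∃ C : Subgroup G,
      PC {g : G | (g ∈ PN ∧ g ∉ N) ∨ ∃ hg : g ∈ N, cls N ⟨g, hg⟩ ∈ S} C := by
    have hstr : ∀ x ∈ PN, x ∉ N → ∀ y ∈ PN, x * y ∈ PN ∧ x * y ∉ N := by
      intro x hx hxN y hy
      refine ⟨hN.mul _ hx _ hy, fun hxy => hxN ?_⟩
      refine (hN.ker x).1 ⟨hx, ?_⟩
      have := hN.mul _ hy _ (hN.sub _ (N.inv_mem hxy))
      have e : y * (x * y)⁻¹ = x⁻¹ := by group
      rwa [e] at this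
    have hstr' : ∀ x ∈ PN, x ∉ N → ∀ y ∈ PN, y * x ∈ PN ∧ y * x ∉ N := by
      intro x hx hxN y hy
      refine ⟨hN.mul _ hy _ hx, fun hxy => hxN ?_⟩
      refine (hN.ker x).1 ⟨hx, ?_⟩
      have := hN.mul _ (hN.sub _ (N.inv_mem hxy)) _ hy
      have e : (y * x)⁻¹ * y = x⁻¹ := by group
      rwa [e] at this
    refine exists_PC ?_ ?_ ?_
    · rintro x (⟨hx, hxN⟩ | ⟨hx, hxS⟩) y (⟨hy, hyN⟩ | ⟨hy, hyS⟩)
      · exact Or.inl (hstr x hx hxN y hy)
      · exact Or.inl (hstr x hx hxN y (hN.sub _ hy))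
      · exact Or.inl (hstr' y hy hyN x (hN.sub _ hx))
      · refine Or.inr ⟨N.mul_mem hx hy, ?_⟩
        have := Sadd _ hxS _ hyS
        rw [← cls_mul] at this
        exact this
    · rintro g x (⟨hx, hxN⟩ | ⟨hx, hxS⟩)
      · refine Or.inl ⟨hN.conj _ _ hx, fun h => hxN ?_⟩
        have := hNn.conj_mem _ h g⁻¹
        have e : g⁻¹ * (g * x * g⁻¹) * g⁻¹⁻¹ = x := by group
        rwa [e] at this
      · refine Or.inr ⟨hNn.conj_mem _ hx g, ?_⟩
        have := Sφ g _ hxS
        rw [actHom_cls] at this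
        have e : MulAut.conjNormal g (⟨x, hx⟩ : N) = ⟨g * x * g⁻¹, hNn.conj_mem _ hx g⟩ := by
          apply Subtype.ext
          rw [MulAut.conjNormal_apply]
        rwa [e] at this
    · intro x
      by_cases hxN : x ∈ N
      · rcases Stot (cls N ⟨x, hxN⟩) with h | h
        · exact Or.inl (Or.inr ⟨hxN, h⟩)
        · rw [← cls_inv] at h
          exact Or.inr (Or.inr ⟨N.inv_mem hxN, h⟩)
      · have hxN' : x⁻¹ ∉ N := fun h => hxN (by simpa using N.inv_mem h)
        rcases hN.total x with h | h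
        · exact Or.inl (Or.inl ⟨h, hxN⟩)
        · exact Or.inr (Or.inl ⟨h, hxN'⟩)
  have hCiff : ∀ x (hx : x ∈ N), x ∈ C ↔ cls N ⟨x, hx⟩ ∈ Tor (actHom N) ⊥ := by
    intro x hx
    rw [← hC.ker, ← Sker]
    constructor
    · rintro ⟨h1 | ⟨_, h1⟩, h2 | ⟨_, h2⟩⟩
      · exact absurd hx h1.2
      · exact absurd hx h1.2
      · exact absurd (N.inv_mem hx) h2.2
      · refine ⟨h1, ?_⟩
        rw [← cls_inv]; exact h2
    · rintro ⟨h1, h2⟩
      rw [← cls_inv] at h2
      exact ⟨Or.inr ⟨hx, h1⟩, Or.inr ⟨N.inv_mem hx, h2⟩⟩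
  have hCN : C ≤ N := by
    intro x hx
    obtain ⟨h1, h2⟩ := (hC.ker x).2 hx
    rcases h1 with h1 | ⟨h1, _⟩
    · rcases h2 with h2 | ⟨h2, _⟩
      · exact (hN.ker x).1 ⟨h1.1, h2.1⟩
      · simpa using N.inv_mem h2
    · exact h1
  have hNcomm_le : ∀ x ∈ N, ∀ y ∈ N, ⁅x, y⁆ ∈ C := by
    intro x hx y hy
    have hxy : ⁅x, y⁆ ∈ N := Subgroup.commutator_le_left N N (Subgroup.commutator_mem_commutator hx hy)
    rw [hCiff _ hxy]
    refine ⟨actHom N 1, Pos.base 1, ?_⟩
    have e : cls N ⟨⁅x, y⁆, hxy⟩ = 0 := by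
      have : (⟨⁅x, y⁆, hxy⟩ : N) = ⟨x, hx⟩ * ⟨y, hy⟩ * ⟨x, hx⟩⁻¹ * ⟨y, hy⟩⁻¹ := rfl
      rw [this, cls_mul, cls_mul, cls_mul, cls_inv, cls_inv]; abel
    rw [e, map_zero]
    exact (⊥ : AddSubgroup _).zero_mem
  rcases huniq _ C hC with hCe | hCe | hCe
  · -- N abelian
    intro x hx y hy
    have := hNcomm_le x (hGN hx) y (hGN hy)
    rw [hCe, Subgroup.mem_bot, commutatorElement_eq_one_iff_mul_comm] at this
    exact this
  · -- main case
    have hrel : ∀ v : Additive (Abelianization N), ∃ c, Pos (actHom N) c ∧ c v = 0 := by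
      intro v
      obtain ⟨x, rfl⟩ := cls_surj N v
      have hx : (x : G) ∈ C := by rw [hCe]; exact x.2
      rw [hCiff _ x.2] at hx
      obtain ⟨c, hc, hcx⟩ := hx
      exact ⟨c, hc, hcx⟩
    obtain ⟨lo, hl, hr⟩ := h0.exists_linearOrder
    have hHP : HP N := by
      intro u huN hu x hx
      obtain ⟨D, ⟨P', hP'⟩, huD, hD⟩ := exists_dom u
      rcases huniq P' D hP' with rfl | rfl | rfl
      · exact absurd (Subgroup.mem_bot.mp huD) hu
      · exact hD x hx
      · exact hD x (Subgroup.mem_top _)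
    -- rank one
    have hrank : ∀ T : G, T ∉ N → ∀ g : G, actHom N g = 1 ∨
        ∃ l : ℕ, 0 < l ∧ ∃ k : ℤ, actHom N (g ^ k) = actHom N (T ^ l) := by
      intro T hT g
      by_cases hg : g ∈ N
      · left; exact actHom_mem N hg
      right
      obtain ⟨P, D, hPD, hD⟩ := exists_isol (N ⊔ Subgroup.zpowers T) (hGN.trans le_sup_left)
      have hTD : T ∈ D := (hD T).2 ⟨1, one_pos, by
        rw [pow_one]; exact (le_sup_right : Subgroup.zpowers T ≤ _) (Subgroup.mem_zpowers T)⟩
      have hDtop : D = ⊤ := by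
        rcases huniq P D hPD with h | h | h
        · exfalso
          rw [h, Subgroup.mem_bot] at hTD
          exact hT (hTD ▸ N.one_mem)
        · exfalso; rw [h] at hTD; exact hT hTD
        · exact h
      obtain ⟨m, hm, hgm⟩ := (hD g).1 (hDtop ▸ Subgroup.mem_top g)
      rw [Subgroup.mem_sup_of_normal_left] at hgm
      obtain ⟨n, hn, z, hz, e⟩ := hgm
      obtain ⟨l, rfl⟩ := Subgroup.mem_zpowers_iff.mp hz
      have hl0 : l ≠ 0 := by
        rintro rfl
        rw [zpow_zero, mul_one] at e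
        exact hg (hN.isolated hm (e ▸ hn))
      have hact : actHom N (g ^ (m : ℤ)) = actHom N (T ^ l) := by
        rw [zpow_natCast, ← e, map_mul, actHom_mem N hn, one_mul]
      rcases lt_or_gt_of_ne hl0 with hneg | hpos
      · refine ⟨l.natAbs, by omega, -(m : ℤ), ?_⟩
        have h1 : T ^ l.natAbs = (T ^ l)⁻¹ := by
          rw [← zpow_natCast, ← zpow_neg]
          congr 1
          omega
        have h2 : g ^ (-(m : ℤ)) = (g ^ (m : ℤ))⁻¹ := zpow_neg _ _
        rw [h1, h2]
        -- inverse images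
        have hinv : ∀ x : G, actHom N x * actHom N x⁻¹ = 1 := fun x => by
          rw [← map_mul, mul_inv_cancel, map_one]
        have hinv' : ∀ x : G, actHom N x⁻¹ * actHom N x = 1 := fun x => by
          rw [← map_mul, inv_mul_cancel, map_one]
        calc actHom N (g ^ (m : ℤ))⁻¹
            = actHom N (g ^ (m : ℤ))⁻¹ * (actHom N (T ^ l) * actHom N (T ^ l)⁻¹) := by
              rw [hinv, mul_one]
          _ = (actHom N (g ^ (m : ℤ))⁻¹ * actHom N (g ^ (m : ℤ))) * actHom N (T ^ l)⁻¹ := by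
              rw [hact, mul_assoc]
          _ = actHom N (T ^ l)⁻¹ := by rw [hinv', one_mul]
      · refine ⟨l.natAbs, by omega, m, ?_⟩
        have h1 : T ^ l.natAbs = T ^ l := by
          rw [← zpow_natCast]
          congr 1
          omega
        rw [h1]; exact hact
    -- Lemma K
    have hK : ∀ u ∈ N, u ≠ 1 → ∀ h ∈ N, ∃ m : ℕ, 0 < m ∧ ∃ k ∈ ⁅N, N⁆, ∃ n : ℕ,
        |h ^ m * k|ₘ ≤ |u|ₘ ^ n := by
      intro u huN hu h hh
      let W : AddSubgroup (Additive (Abelianization N)) :=
        { carrier := {v | ∃ m : ℕ, 0 < m ∧ ∃ x : N, (∃ n : ℕ, |(x : G)|ₘ ≤ |u|ₘ ^ n) ∧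
            cls N x = m • v}
          add_mem' := by
            rintro a b ⟨m1, hm1, x1, ⟨n1, hx1⟩, e1⟩ ⟨m2, hm2, x2, ⟨n2, hx2⟩, e2⟩
            have hpw : ∀ (x : G) (n k : ℕ), |x|ₘ ≤ |u|ₘ ^ n → |x ^ k|ₘ ≤ |u|ₘ ^ (n * k) := by
              intro x n k hx
              induction k with
              | zero => simp
              | succ k ih =>
                rw [pow_succ, Nat.mul_succ]
                exact mabs_mul_le_pow ih hx
            refine ⟨m1 * m2, Nat.mul_pos hm1 hm2, x1 ^ m2 * x2 ^ m1, ⟨n1 * m2 + n2 * m1, ?_⟩, ?_⟩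
            · exact mabs_mul_le_pow (hpw _ _ _ hx1) (hpw _ _ _ hx2)
            · rw [cls_mul, cls_pow, cls_pow, e1, e2, smul_add, ← mul_nsmul, ← mul_nsmul,
                mul_comm m2 m1]
          zero_mem' := ⟨1, one_pos, 1, ⟨0, by simp⟩, by rw [cls_one, smul_zero]⟩
          neg_mem' := by
            rintro a ⟨m1, hm1, x1, ⟨n1, hx1⟩, e1⟩
            refine ⟨m1, hm1, x1⁻¹, ⟨n1, ?_⟩, ?_⟩
            · rw [Subgroup.coe_inv, mabs_inv]; exact hx1
            · rw [cls_inv, e1, smul_neg] }
      by_cases hvW : cls N ⟨h, hh⟩ ∈ W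
      · obtain ⟨m, hm, x, ⟨n, hx⟩, e⟩ := hvW
        rw [← cls_pow] at e
        have h1 := cls_eq N e.symm
        refine ⟨m, hm, _, h1, n, ?_⟩
        have e2 : h ^ m * (((⟨h, hh⟩ ^ m)⁻¹ * x : N) : G) = x := by
          rw [Subgroup.coe_mul, Subgroup.coe_inv, Subgroup.coe_pow]
          exact mul_inv_cancel_left _ _
        rw [e2]; exact hx
      · exfalso
        obtain ⟨T, n, hT⟩ := hHP u huN hu h hh
        have hTW : actHom N T⁻¹ (cls N ⟨h, hh⟩) ∈ W := by
          rw [actHom_cls]
          refine ⟨1, one_pos, _, ⟨n, ?_⟩, (one_nsmul _).symm⟩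
          rw [MulAut.conjNormal_apply, mabs_conj]
          rw [conj_pow] at hT
          have := conj_le T⁻¹ hT
          calc T⁻¹ * |h|ₘ * T⁻¹⁻¹ ≤ T⁻¹ * (T * |u|ₘ ^ n * T⁻¹) * T⁻¹⁻¹ := this
            _ = |u|ₘ ^ n := by group
        have hTN : T ∉ N := by
          intro hTN
          rw [actHom_mem N (N.inv_mem hTN)] at hTW
          exact hvW hTW
        obtain ⟨c, hc, hc0⟩ := hrel (cls N ⟨h, hh⟩)
        refine lemX W ?_ ?_ (cls N ⟨h, hh⟩) T hvW hTW (hrank T hTN) c hc hc0
        · rintro m hm v ⟨m', hm', x, hx, e⟩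
          exact ⟨m' * m, Nat.mul_pos hm' hm, x, hx, by rw [e, mul_comm, mul_nsmul]⟩
        · intro g
          have hgen : ∀ g : G, g * |u|ₘ * g⁻¹ ≤ |u|ₘ → ∀ w ∈ W, actHom N g w ∈ W := by
            rintro g hg w ⟨m, hm, x, ⟨n, hx⟩, e⟩
            refine ⟨m, hm, MulAut.conjNormal g x, ⟨n, ?_⟩, ?_⟩
            · rw [MulAut.conjNormal_apply, mabs_conj]
              calc g * |(x : G)|ₘ * g⁻¹ ≤ g * |u|ₘ ^ n * g⁻¹ := conj_le g hx
                _ = (g * |u|ₘ * g⁻¹) ^ n := by rw [conj_pow]
                _ ≤ |u|ₘ ^ n := pow_le_pow_left' hg n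
            · rw [← actHom_cls, e, map_nsmul]
          rcases le_total (g * |u|ₘ * g⁻¹) |u|ₘ with h1 | h1
          · exact Or.inl (hgen g h1)
          · right
            apply hgen
            have := conj_le g⁻¹ h1
            calc g⁻¹ * |u|ₘ * g⁻¹⁻¹ ≤ g⁻¹ * (g * |u|ₘ * g⁻¹) * g⁻¹⁻¹ := this
              _ = |u|ₘ := by group
    -- conclude
    have hJ : ∀ b ∈ ⁅commutator G, commutator G⁆, ∀ l ∈ commutator G, b * l = l * b :=
      stageB hNn inferInstance hGN hHP (Subgroup.commutator_le_left _ _) hJJ hK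
    exact stageB hNn inferInstance hGN hHP le_rfl (fun b hb l hl => (hJ l hl b hb).symm) hK
  · exfalso
    rw [hCe] at hCN
    exact hNt (top_le_iff.mp hCN)

end Q151.Ord3
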