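import Mathlib

/-!
Module lemmas for `MP_b7123c_al`: positive combinations, invariant cones (Zorn), and the
valuation lemma.
-/

namespace Q151.Ord3

section

variable {G V : Type*} [Group G] [AddCommGroup V]

theorem end_add_apply {V : Type*} [AddCommGroup V] (a b : AddMonoid.End V) (v : V) :
    (a + b) v = a v + b v := rfl

/-- positive combinations (non-empty sums) of the `φ g` -/
inductive Pos (φ : G →* AddMonoid.End V) : AddMonoid.End V → Prop
  | base (g : G) : Pos φ (φ g)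
  | add (a b : AddMonoid.End V) : Pos φ a → Pos φ b → Pos φ (a + b)

variable {φ : G →* AddMonoid.End V}

theorem Pos.mul {a b : AddMonoid.End V} (ha : Pos φ a) (hb : Pos φ b) : Pos φ (a * b) := by
  induction ha with
  | base g =>
    induction hb with
    | base h => rw [← map_mul]; exact Pos.base _
    | add c d _ _ hc hd => rw [mul_add]; exact Pos.add _ _ hc hd
  | add c d _ _ hc hd => rw [add_mul]; exact Pos.add _ _ hc hd

theorem Pos.comm (hφ : ∀ g h, φ g * φ h = φ h * φ g) {a b : AddMonoid.End V} (ha : Pos φ a)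
    (hb : Pos φ b) : a * b = b * a := by
  induction ha with
  | base g =>
    induction hb with
    | base h => exact hφ g h
    | add c d _ _ hc hd => rw [mul_add, add_mul, hc, hd]
  | add c d _ _ hc hd => rw [add_mul, mul_add, hc, hd]

theorem Pos.comm_apply (hφ : ∀ g h, φ g * φ h = φ h * φ g) {a b : AddMonoid.End V} (ha : Pos φ a)
    (hb : Pos φ b) (v : V) : a (b v) = b (a v) := by
  have := congrArg (fun f : AddMonoid.End V => f v) (ha.comm hφ hb)
  exact this

theorem Pos.nsmul (m : ℕ) (hm : 0 < m) : ∃ c, Pos φ c ∧ ∀ v, c v = m • v := by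
  obtain ⟨k, rfl⟩ : ∃ k, m = k + 1 := ⟨m - 1, by omega⟩
  clear hm
  induction k with
  | zero => exact ⟨φ 1, Pos.base 1, fun v => by simp⟩
  | succ k ih =>
    obtain ⟨c, hc, hcv⟩ := ih
    refine ⟨c + φ 1, Pos.add _ _ hc (Pos.base 1), fun v => ?_⟩
    rw [end_add_apply, hcv, map_one]
    rw [succ_nsmul _ (k + 1)]
    rfl

/-- a set closed under addition and all `φ g` is closed under positive combinations -/
theorem Pos.apply_mem {S : Set V} (hadd : ∀ x ∈ S, ∀ y ∈ S, x + y ∈ S) (hg : ∀ g, ∀ x ∈ S, φ g x ∈ S)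
    {c : AddMonoid.End V} (hc : Pos φ c) : ∀ x ∈ S, c x ∈ S := by
  induction hc with
  | base g => exact hg g
  | add a b _ _ ha hb => exact fun x hx => hadd _ (ha x hx) _ (hb x hx)

/-- the set of nonnegative torsion relative to `R` -/
def Tor (φ : G →* AddMonoid.End V) (R : AddSubgroup V) : Set V := {v | ∃ c, Pos φ c ∧ c v ∈ R}

/-- Lemma O: total invariant preorder cone with kernel `Tor φ R`. -/
theorem exists_cone (hφ : ∀ g h, φ g * φ h = φ h * φ g) (R : AddSubgroup V)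
    (hR : ∀ g, ∀ x ∈ R, φ g x ∈ R) :
    ∃ S : Set V, (∀ x ∈ S, ∀ y ∈ S, x + y ∈ S) ∧ (∀ g, ∀ x ∈ S, φ g x ∈ S) ∧
      (∀ x, x ∈ S ∨ -x ∈ S) ∧ (∀ x, (x ∈ S ∧ -x ∈ S) ↔ x ∈ Tor φ R) := by
  have hRc : ∀ {c : AddMonoid.End V}, Pos φ c → ∀ x ∈ R, c x ∈ R := fun hc =>
    Pos.apply_mem (S := (R : Set V)) (fun x hx y hy => R.add_mem hx hy) hR hc
  set T := Tor φ R with hT
  have T0 : (0 : V) ∈ T := ⟨φ 1, Pos.base 1, by rw [map_zero]; exact R.zero_mem⟩
  have Tadd : ∀ x ∈ T, ∀ y ∈ T, x + y ∈ T := by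
    rintro x ⟨c, hc, hcx⟩ y ⟨d, hd, hdy⟩
    refine ⟨c * d, hc.mul hd, ?_⟩
    have e : (c * d) (x + y) = d (c x) + c (d y) := by
      rw [map_add]
      change c (d x) + c (d y) = _
      rw [hc.comm_apply hφ hd]
    rw [e]
    exact R.add_mem (hRc hd _ hcx) (hRc hc _ hdy)
  have Tneg : ∀ x ∈ T, -x ∈ T := by
    rintro x ⟨c, hc, hcx⟩
    exact ⟨c, hc, by rw [map_neg]; exact R.neg_mem hcx⟩
  have Tφ : ∀ g, ∀ x ∈ T, φ g x ∈ T := by
    rintro g x ⟨c, hc, hcx⟩
    refine ⟨c, hc, ?_⟩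
    rw [hc.comm_apply hφ (Pos.base g)]
    exact hR g _ hcx
  have Tc : ∀ {c : AddMonoid.End V}, Pos φ c → ∀ x, c x ∈ T → x ∈ T := by
    rintro c hc x ⟨d, hd, hdx⟩
    exact ⟨d * c, hd.mul hc, hdx⟩
  let F : Set (Set V) := {S | (∀ x ∈ S, ∀ y ∈ S, x + y ∈ S) ∧ (∀ g, ∀ x ∈ S, φ g x ∈ S) ∧ T ⊆ S ∧
    (∀ x, x ∈ S → -x ∈ S → x ∈ T)}
  have hTF : T ∈ F := ⟨Tadd, Tφ, subset_rfl, fun x hx _ => hx⟩
  obtain ⟨S, hTS, hS⟩ := zorn_subset_nonempty F (by
    intro C hCF hC hCne
    refine ⟨⋃₀ C, ⟨?_, ?_, ?_, ?_⟩, fun s hs => Set.subset_sUnion_of_mem hs⟩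
    · rintro x ⟨s, hs, hxs⟩ y ⟨t, ht, hyt⟩
      rcases hC.total hs ht with h | h
      · exact ⟨t, ht, (hCF ht).1 x (h hxs) y hyt⟩
      · exact ⟨s, hs, (hCF hs).1 x hxs y (h hyt)⟩
    · rintro g x ⟨s, hs, hxs⟩
      exact ⟨s, hs, (hCF hs).2.1 g x hxs⟩
    · obtain ⟨s, hs⟩ := hCne
      exact (hCF hs).2.2.1.trans (Set.subset_sUnion_of_mem hs)
    · rintro x ⟨s, hs, hxs⟩ ⟨t, ht, hyt⟩
      rcases hC.total hs ht with h | h
      · exact (hCF ht).2.2.2 x (h hxs) hyt
      · exact (hCF hs).2.2.2 x hxs (h hyt)) T hTF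
  obtain ⟨⟨Sadd, Sφ, -, Santi⟩, Smax⟩ := hS
  have Sc : ∀ {c : AddMonoid.End V}, Pos φ c → ∀ x ∈ S, c x ∈ S := fun hc =>
    Pos.apply_mem Sadd Sφ hc
  have S0 : (0 : V) ∈ S := hTS T0
  -- key
  have key : ∀ v, v ∉ S → ∃ s ∈ S, ∃ c, Pos φ c ∧ s + c v = 0 := by
    intro v hv
    by_contra hno
    push Not at hno
    let S' : Set V := {w | w ∈ S ∨ ∃ s ∈ S, ∃ c, Pos φ c ∧ w = s + c v}
    have hS'F : S' ∈ F := by
      refine ⟨?_, ?_, hTS.trans (fun w hw => Or.inl hw), ?_⟩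
      · rintro x (hx | ⟨s, hs, c, hc, rfl⟩) y (hy | ⟨t, ht, d, hd, rfl⟩)
        · exact Or.inl (Sadd x hx y hy)
        · exact Or.inr ⟨x + t, Sadd x hx t ht, d, hd, by abel⟩
        · exact Or.inr ⟨s + y, Sadd s hs y hy, c, hc, by abel⟩
        · refine Or.inr ⟨s + t, Sadd s hs t ht, c + d, Pos.add _ _ hc hd, ?_⟩
          rw [end_add_apply]; abel
      · rintro g x (hx | ⟨s, hs, c, hc, rfl⟩)
        · exact Or.inl (Sφ g x hx)
        · refine Or.inr ⟨φ g s, Sφ g s hs, φ g * c, (Pos.base g).mul hc, ?_⟩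
          rw [map_add]; rfl
      · rintro x (hx | ⟨s, hs, c, hc, hx⟩) (hy | ⟨t, ht, d, hd, hy⟩)
        · exact Santi x hx hy
        · exfalso
          refine hno (x + t) (Sadd x hx t ht) d hd ?_
          rw [add_assoc, ← hy]; abel
        · exfalso
          refine hno (s + -x) (Sadd s hs _ hy) c hc ?_
          rw [add_right_comm, ← hx]; abel
        · exfalso
          refine hno (s + t) (Sadd s hs t ht) (c + d) (Pos.add _ _ hc hd) ?_
          rw [end_add_apply]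
          calc s + t + (c v + d v) = (s + c v) + (t + d v) := by abel
            _ = 0 := by rw [← hx, ← hy]; abel
    have hle : S' ⊆ S := Smax hS'F (fun w hw => Or.inl hw)
    exact hv (hle (Or.inr ⟨0, S0, φ 1, Pos.base 1, by simp⟩))
  refine ⟨S, Sadd, Sφ, ?_, ?_⟩
  · intro v
    by_contra hcon
    push Not at hcon
    obtain ⟨h1, h2⟩ := hcon
    obtain ⟨s, hs, c, hc, e1⟩ := key v h1
    obtain ⟨t, ht, d, hd, e2⟩ := key (-v) h2
    -- d s + c t = 0
    have e3 : d s + c t = 0 := by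
      have a1 : d (s + c v) = 0 := by rw [e1, map_zero]
      have a2 : c (t + d (-v)) = 0 := by rw [e2, map_zero]
      rw [map_add] at a1 a2
      rw [map_neg, map_neg, hc.comm_apply hφ hd] at a2
      calc d s + c t = (d s + d (c v)) + (c t + -(d (c v))) := by abel
        _ = 0 := by rw [a1, a2, add_zero]
    have h3 : d s ∈ T := by
      refine Santi _ (Sc hd s hs) ?_
      have : -(d s) = c t := by
        rw [neg_eq_iff_add_eq_zero]; exact e3
      rw [this]; exact Sc hc t ht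
    have h4 : s ∈ T := Tc hd s h3
    have h5 : c v ∈ T := by
      have : c v = -s := by
        rw [eq_neg_iff_add_eq_zero, add_comm]; exact e1
      rw [this]; exact Tneg s h4
    exact h1 (hTS (Tc hc v h5))
  · intro x
    constructor
    · rintro ⟨h1, h2⟩
      exact Santi x h1 h2
    · intro hx
      exact ⟨hTS hx, hTS (Tneg x hx)⟩

/-- Lemma X: the valuation lemma. -/
theorem lemX (W : AddSubgroup V)
    (hiso : ∀ m : ℕ, 0 < m → ∀ v, m • v ∈ W → v ∈ W)
    (hchain : ∀ g, (∀ w ∈ W, φ g w ∈ W) ∨ (∀ w ∈ W, φ g⁻¹ w ∈ W))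
    (v : V) (T : G) (hv : v ∉ W) (hT : φ T⁻¹ v ∈ W)
    (hr : ∀ g, φ g = 1 ∨ ∃ l : ℕ, 0 < l ∧ ∃ k : ℤ, φ (g ^ k) = φ (T ^ l)) :
    ∀ c, Pos φ c → c v ≠ 0 := by
  have hmul : ∀ g h : G, ∀ x : V, φ (g * h) x = φ g (φ h x) := by
    intro g h x; rw [map_mul]; rfl
  -- T⁻¹ preserves W
  have hTW : ∀ w ∈ W, φ T⁻¹ w ∈ W := by
    rcases hchain T with h | h
    · exfalso
      apply hv
      have := h _ hT
      rwa [← hmul, mul_inv_cancel, map_one] at this
    · exact h
  have hTW' : ∀ n : ℕ, ∀ w ∈ W, φ (T⁻¹ ^ n) w ∈ W := by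
    intro n
    induction n with
    | zero => intro w hw; rw [pow_zero, map_one]; exact hw
    | succ n ih => intro w hw; rw [pow_succ', hmul]; exact hTW _ (ih w hw)
  -- preorder on translates
  have htot : ∀ g h : G, (∀ x, φ g x ∈ W → φ h x ∈ W) ∨ (∀ x, φ h x ∈ W → φ g x ∈ W) := by
    intro g h
    rcases hchain (h * g⁻¹) with h1 | h1
    · left
      intro x hx
      have := h1 _ hx
      rwa [← hmul, inv_mul_cancel_right] at this
    · right
      intro x hx
      have := h1 _ hx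
      rwa [← hmul, mul_inv_rev, inv_inv, inv_mul_cancel_right] at this
  -- separation
  have hsep : ∀ g1 g2 : G, φ g1 = φ g2 ∨
      ∃ h, (φ h (φ g2 v) ∈ W ∧ φ h (φ g1 v) ∉ W) ∨ (φ h (φ g1 v) ∈ W ∧ φ h (φ g2 v) ∉ W) := by
    intro g1 g2
    rcases hr (g1⁻¹ * g2) with h1 | ⟨l, hl, k, hk⟩
    · left
      have := congrArg (fun f => φ g1 * f) h1
      simp only [mul_one] at this
      rw [← map_mul, mul_inv_cancel_left] at this
      exact this.symm
    · right
      by_contra hno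
      push Not at hno
      set g := g1⁻¹ * g2 with hg
      have hiff : ∀ h, φ h v ∈ W ↔ φ (h * g) v ∈ W := by
        intro h
        have h2 := hno (h * g1⁻¹)
        rw [← hmul, ← hmul, inv_mul_cancel_right, mul_assoc, ← hg] at h2
        constructor
        · exact fun hx => h2.2 hx
        · exact fun hx => h2.1 hx
      have hpow : ∀ n : ℕ, ∀ h, φ h v ∈ W ↔ φ (h * g ^ n) v ∈ W := by
        intro n
        induction n with
        | zero => intro h; simp
        | succ n ih => intro h; rw [pow_succ, ← mul_assoc, ← hiff, ih h]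
      have hzpow : ∀ k : ℤ, ∀ h, φ h v ∈ W ↔ φ (h * g ^ k) v ∈ W := by
        intro k h
        obtain ⟨n, rfl | rfl⟩ := k.eq_nat_or_neg
        · rw [zpow_natCast]; exact hpow n h
        · rw [zpow_neg, zpow_natCast]
          have := hpow n (h * (g ^ n)⁻¹)
          rw [inv_mul_cancel_right] at this
          exact this.symm
      have h3 := (hzpow k T⁻¹).1 hT
      rw [hmul, hk, ← hmul] at h3
      obtain ⟨l', rfl⟩ : ∃ l', l = l' + 1 := ⟨l - 1, by omega⟩
      rw [pow_succ', inv_mul_cancel_left] at h3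
      have h4 := hTW' l' _ h3
      rw [← hmul, inv_pow, inv_mul_cancel, map_one] at h4
      exact hv h4
  -- leading term
  have hlead : ∀ c, Pos φ c → ∃ g h : G, ∃ m : ℕ, 0 < m ∧ φ h (c v - m • φ g v) ∈ W ∧
      φ h (φ g v) ∉ W := by
    intro c hc
    induction hc with
    | base g =>
      refine ⟨g, g⁻¹, 1, one_pos, ?_, ?_⟩
      · rw [one_nsmul, sub_self, map_zero]; exact W.zero_mem
      · rw [← hmul, inv_mul_cancel, map_one]; exact hv
    | add c d _ _ hc hd =>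
      obtain ⟨g1, h1, m1, hm1, a1, b1⟩ := hc
      obtain ⟨g2, h2, m2, hm2, a2, b2⟩ := hd
      -- general combination
      have comb : ∀ (c1 c2 : AddMonoid.End V) (g1 g2 h1 h2 : G) (m1 m2 : ℕ), 0 < m1 →
          φ h1 (c1 v - m1 • φ g1 v) ∈ W → φ h1 (φ g1 v) ∉ W →
          φ h2 (c2 v - m2 • φ g2 v) ∈ W → φ h2 (φ g2 v) ∉ W →
          (∃ h, φ h (φ g2 v) ∈ W ∧ φ h (φ g1 v) ∉ W) →
          ∃ h : G, φ h ((c1 + c2) v - m1 • φ g1 v) ∈ W ∧ φ h (φ g1 v) ∉ W := by
        intro c1 c2 g1 g2 h1 h2 m1 m2 hm1 a1 b1 a2 b2 ⟨h, p, q⟩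
        have h2h : ∀ x, φ h2 x ∈ W → φ h x ∈ W := by
          rcases htot h2 h with t | t
          · exact t
          · exact absurd (t _ p) b2
        have e : (c1 + c2) v - m1 • φ g1 v =
            (c1 v - m1 • φ g1 v) + ((c2 v - m2 • φ g2 v) + m2 • φ g2 v) := by
          rw [end_add_apply]; abel
        rcases htot h1 h with t | t
        · refine ⟨h, ?_, q⟩
          rw [e, map_add, map_add, map_nsmul]
          exact W.add_mem (t _ a1) (W.add_mem (h2h _ a2) (W.nsmul_mem p _))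
        · refine ⟨h1, ?_, b1⟩
          rw [e, map_add, map_add, map_nsmul]
          exact W.add_mem a1 (W.add_mem (t _ (h2h _ a2)) (W.nsmul_mem (t _ p) _))
      rcases hsep g1 g2 with hs | ⟨h, hs | hs⟩
      · rw [← hs] at a2 b2
        have e : (c + d) v - (m1 + m2) • φ g1 v = (c v - m1 • φ g1 v) + (d v - m2 • φ g1 v) := by
          rw [end_add_apply, add_nsmul]; abel
        rcases htot h1 h2 with t | t
        · refine ⟨g1, h2, m1 + m2, by omega, ?_, b2⟩
          rw [e, map_add]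
          exact W.add_mem (t _ a1) a2
        · refine ⟨g1, h1, m1 + m2, by omega, ?_, b1⟩
          rw [e, map_add]
          exact W.add_mem a1 (t _ a2)
      · obtain ⟨h', p, q⟩ := comb c d g1 g2 h1 h2 m1 m2 hm1 a1 b1 a2 b2 ⟨h, hs⟩
        exact ⟨g1, h', m1, hm1, p, q⟩
      · obtain ⟨h', p, q⟩ := comb d c g2 g1 h2 h1 m2 m1 hm2 a2 b2 a1 b1 ⟨h, hs⟩
        rw [add_comm d c] at p
        exact ⟨g2, h', m2, hm2, p, q⟩
  intro c hc h0
  obtain ⟨g, h, m, hm, p, q⟩ := hlead c hc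
  rw [h0, zero_sub, map_neg, map_nsmul] at p
  exact q (hiso m hm _ (by simpa using W.neg_mem p))

end

end Q151.Ord3
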