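import Mathlib

/-!
Ordered group lemmas for `MP_b7123c_al`.
-/

namespace Q151.Ord3

section Ordered

variable {G : Type*} [Group G] [LinearOrder G] [MulLeftMono G] [MulRightMono G]

theorem conj_one_lt (g : G) {x : G} (h : 1 < x) : 1 < g * x * g⁻¹ := by
  have h1 : g * 1 * g⁻¹ < g * x * g⁻¹ :=
    mul_lt_mul_left (mul_lt_mul_right h g) g⁻¹
  simpa using h1

theorem conj_le (g : G) {x y : G} (h : x ≤ y) : g * x * g⁻¹ ≤ g * y * g⁻¹ :=
  mul_le_mul_left (mul_le_mul_right h g) g⁻¹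

theorem conj_lt (g : G) {x y : G} (h : x < y) : g * x * g⁻¹ < g * y * g⁻¹ :=
  mul_lt_mul_left (mul_lt_mul_right h g) g⁻¹

theorem conj_one_le (g : G) {x : G} (h : 1 ≤ x) : 1 ≤ g * x * g⁻¹ := by
  have := conj_le g h
  simpa using this

theorem conj_le_one (g : G) {x : G} (h : x ≤ 1) : g * x * g⁻¹ ≤ 1 := by
  have := conj_le g h
  simpa using this

theorem mabs_conj (g x : G) : |g * x * g⁻¹|ₘ = g * |x|ₘ * g⁻¹ := by
  rcases le_total 1 x with h | h
  · rw [mabs_of_one_le h, mabs_of_one_le (conj_one_le g h)]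
  · rw [mabs_of_le_one h, mabs_of_le_one (conj_le_one g h)]
    group

/-- the basic step: `b z b⁻¹ = c⁻¹ z`, `c` commutes with `b` -/
theorem L0 (z b c : G) (h1 : b * z * b⁻¹ = c⁻¹ * z) (h2 : b * c * b⁻¹ = c) (n : ℕ) :
    b ^ n * z * (b ^ n)⁻¹ = (c ^ n)⁻¹ * z := by
  induction n with
  | zero => simp
  | succ n ih =>
    have e1 : b * c ^ n * b⁻¹ = c ^ n := by
      rw [← conj_pow, h2]
    have e2 : b * (c ^ n)⁻¹ * b⁻¹ = (c ^ n)⁻¹ := by
      have := congrArg (fun t => t⁻¹) e1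
      simp only [mul_inv_rev, inv_inv] at this
      rw [← mul_assoc] at this
      exact this
    calc b ^ (n + 1) * z * (b ^ (n + 1))⁻¹ = b * (b ^ n * z * (b ^ n)⁻¹) * b⁻¹ := by
          rw [pow_succ']; group
      _ = (b * (c ^ n)⁻¹ * b⁻¹) * (b * z * b⁻¹) := by rw [ih]; group
      _ = (c ^ (n + 1))⁻¹ * z := by rw [e2, h1, pow_succ']; group

theorem L1pos (z b c : G) (h1 : b * z * b⁻¹ = c⁻¹ * z) (h2 : b * c * b⁻¹ = c) (hz : 1 < z) (n : ℕ) :
    c ^ n < z := by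
  have h := conj_one_lt (b ^ n) hz
  rw [L0 z b c h1 h2 n] at h
  have := mul_lt_mul_right h (c ^ n)
  simpa using this

theorem L1neg (z b c : G) (h1 : b * z * b⁻¹ = c⁻¹ * z) (h2 : b * c * b⁻¹ = c) (hz : z < 1) (n : ℕ) :
    z < c ^ n := by
  have h : b ^ n * z * (b ^ n)⁻¹ < b ^ n * 1 * (b ^ n)⁻¹ := conj_lt (b ^ n) hz
  rw [L0 z b c h1 h2 n] at h
  have := mul_lt_mul_right h (c ^ n)
  simpa using this

/-- L1: if `c = [z,b]` commutes with `b` and `c ≠ 1` then `|c|^n < |z|` for all `n`. -/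
theorem L1 (z b c : G) (hc : c = z * b * z⁻¹ * b⁻¹) (hcb : c * b = b * c) (h1 : c ≠ 1) (n : ℕ) :
    |c|ₘ ^ n < |z|ₘ := by
  have e1 : b * z * b⁻¹ = c⁻¹ * z := by rw [hc]; group
  have e2 : b * c * b⁻¹ = c := by rw [← hcb]; group
  have e2' : b⁻¹ * c * b⁻¹⁻¹ = c := by
    rw [inv_inv, mul_assoc, hcb]; group
  have e3 : b⁻¹ * z * b⁻¹⁻¹ = (c⁻¹)⁻¹ * z := by
    have h3 : z = b⁻¹ * (c⁻¹ * z) * b := by rw [← e1]; group
    have h4 : b⁻¹ * c⁻¹ * b = c⁻¹ := by
      have := congrArg (fun t => t⁻¹) e2'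
      simp only [mul_inv_rev, inv_inv] at this
      rw [← mul_assoc] at this
      exact this
    have h5 : z = c⁻¹ * (b⁻¹ * z * b) := by
      calc z = (b⁻¹ * c⁻¹ * b) * (b⁻¹ * z * b) := by
            conv_lhs => rw [h3]
            group
        _ = _ := by rw [h4]
    rw [inv_inv, inv_inv]
    calc b⁻¹ * z * b = c * (c⁻¹ * (b⁻¹ * z * b)) := by group
      _ = c * z := by rw [← h5]
  have e4 : b⁻¹ * c⁻¹ * b⁻¹⁻¹ = c⁻¹ := by
    have := congrArg (fun t => t⁻¹) e2'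
    simp only [mul_inv_rev, inv_inv] at this
    rw [← mul_assoc] at this
    rw [inv_inv]; exact this
  have hz : z ≠ 1 := by
    rintro rfl
    apply h1; rw [hc]; group
  rcases lt_or_gt_of_ne hz with h | h
  · rw [mabs_of_lt_one h]
    rcases mabs_choice c with hh | hh
    · rw [hh]
      have := L1neg z b⁻¹ c⁻¹ e3 e4 h n
      rw [inv_pow] at this
      exact lt_inv_of_lt_inv this
    · rw [hh]
      have := L1neg z b c e1 e2 h n
      rw [inv_pow]
      exact inv_lt_inv_iff.mpr this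
  · rw [mabs_of_one_lt h]
    rcases mabs_choice c with hh | hh
    · rw [hh]
      exact L1pos z b c e1 e2 h n
    · rw [hh]
      exact L1pos z b⁻¹ c⁻¹ e3 e4 h n

theorem mabs_mul_le_pow {x y w : G} {n m : ℕ} (hx : |x|ₘ ≤ w ^ n) (hy : |y|ₘ ≤ w ^ m) :
    |x * y|ₘ ≤ w ^ (n + m) := by
  rw [mabs_le']
  constructor
  · rw [pow_add]
    exact mul_le_mul' ((le_mabs_self x).trans hx) ((le_mabs_self y).trans hy)
  · rw [add_comm, pow_add, mul_inv_rev]
    exact mul_le_mul' ((inv_le_mabs y).trans hy) ((inv_le_mabs x).trans hx)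

end Ordered

end Q151.Ord3
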