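import Pool.Agent.Q151.Ord3.Stage
import Pool.Agent.Q151.Ord3.Mod

/-!
Invariant total preorders (cones) with kernel, for `MP_b7123c_al`.
-/

open scoped commutatorElement

namespace Q151.Ord3

/-- nonnegative cone of a two-sided invariant total preorder, with kernel `N` -/
structure PC {G : Type*} [Group G] (P : Set G) (N : Subgroup G) : Prop where
  mul : ∀ x ∈ P, ∀ y ∈ P, x * y ∈ P
  conj : ∀ g, ∀ x ∈ P, g * x * g⁻¹ ∈ P
  total : ∀ x, x ∈ P ∨ x⁻¹ ∈ P
  ker : ∀ x, (x ∈ P ∧ x⁻¹ ∈ P) ↔ x ∈ N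

section

variable {G : Type*} [Group G]

theorem PC.sub {P : Set G} {N : Subgroup G} (h : PC P N) : ∀ x ∈ N, x ∈ P :=
  fun x hx => ((h.ker x).2 hx).1

theorem PC.normal {P : Set G} {N : Subgroup G} (h : PC P N) : N.Normal := by
  constructor
  intro n hn g
  obtain ⟨h1, h2⟩ := (h.ker n).2 hn
  refine (h.ker _).1 ⟨h.conj g n h1, ?_⟩
  have := h.conj g _ h2
  have e : (g * n * g⁻¹)⁻¹ = g * n⁻¹ * g⁻¹ := by group
  rw [e]; exact this

theorem exists_PC {P : Set G} (hm : ∀ x ∈ P, ∀ y ∈ P, x * y ∈ P) (hc : ∀ g, ∀ x ∈ P, g * x * g⁻¹ ∈ P)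
    (ht : ∀ x, x ∈ P ∨ x⁻¹ ∈ P) : ∃ C : Subgroup G, PC P C := by
  have h1 : (1 : G) ∈ P := by
    rcases ht 1 with h | h
    · exact h
    · simpa using h
  refine ⟨⟨⟨⟨{x | x ∈ P ∧ x⁻¹ ∈ P}, ?_⟩, ?_⟩, ?_⟩, hm, hc, ht, fun x => Iff.rfl⟩
  · rintro a b ⟨h1, h2⟩ ⟨h3, h4⟩
    exact ⟨hm _ h1 _ h3, by rw [mul_inv_rev]; exact hm _ h4 _ h2⟩
  · exact ⟨h1, by simpa using h1⟩
  · rintro x ⟨h1, h2⟩
    exact ⟨h2, by simpa using h1⟩

theorem PC.pow_mem {P : Set G} {N : Subgroup G} (h : PC P N) {x : G} (hx : x ∈ P) (m : ℕ) :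
    x ^ m ∈ P := by
  induction m with
  | zero => rw [pow_zero]; exact h.sub 1 N.one_mem
  | succ m ih => rw [pow_succ]; exact h.mul _ ih _ hx

/-- the quotient is torsion free -/
theorem PC.isolated {P : Set G} {N : Subgroup G} (h : PC P N) {x : G} {m : ℕ} (hm : 0 < m)
    (hx : x ^ m ∈ N) : x ∈ N := by
  obtain ⟨k, rfl⟩ : ∃ k, m = k + 1 := ⟨m - 1, by omega⟩
  obtain ⟨h1, h2⟩ := (h.ker _).2 hx
  rcases h.total x with hp | hp
  · refine (h.ker x).1 ⟨hp, ?_⟩
    have := h.mul _ (h.pow_mem hp k) _ h2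
    have e : x ^ k * (x ^ (k + 1))⁻¹ = x⁻¹ := by rw [pow_succ]; group
    rwa [e] at this
  · refine (h.ker x).1 ⟨?_, hp⟩
    have := h.mul _ (h.pow_mem hp k) _ h1
    have e : x⁻¹ ^ k * x ^ (k + 1) = x := by rw [pow_succ, inv_pow]; group
    rwa [e] at this

theorem PC.exists_linearOrder {P : Set G} (h : PC P ⊥) :
    ∃ _ : LinearOrder G, MulLeftMono G ∧ MulRightMono G := by
  classical
  let lo : LinearOrder G :=
    { le := fun a b => a⁻¹ * b ∈ P
      le_refl := fun a => by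
        change a⁻¹ * a ∈ P
        rw [inv_mul_cancel]; exact h.sub 1 (Subgroup.one_mem _)
      le_trans := fun a b c hab hbc => by
        change a⁻¹ * c ∈ P
        have := h.mul _ hab _ hbc
        have e : a⁻¹ * b * (b⁻¹ * c) = a⁻¹ * c := by group
        rwa [e] at this
      le_antisymm := fun a b hab hba => by
        have h2 : (a⁻¹ * b)⁻¹ ∈ P := by
          have e : (a⁻¹ * b)⁻¹ = b⁻¹ * a := by group
          rw [e]; exact hba
        have := (h.ker (a⁻¹ * b)).1 ⟨hab, h2⟩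
        rw [Subgroup.mem_bot, inv_mul_eq_one] at this
        exact this
      le_total := fun a b => by
        rcases h.total (a⁻¹ * b) with h1 | h1
        · exact Or.inl h1
        · right
          have e : (a⁻¹ * b)⁻¹ = b⁻¹ * a := by group
          rw [e] at h1; exact h1
      toDecidableLE := Classical.decRel _ }
  refine ⟨lo, ⟨?_⟩, ⟨?_⟩⟩
  · intro c a b hab
    change (c * a)⁻¹ * (c * b) ∈ P
    have e : (c * a)⁻¹ * (c * b) = a⁻¹ * b := by group
    rw [e]; exact hab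
  · intro c a b hab
    change (a * c)⁻¹ * (b * c) ∈ P
    have e : (a * c)⁻¹ * (b * c) = c⁻¹ * (a⁻¹ * b) * c⁻¹⁻¹ := by group
    rw [e]; exact h.conj _ _ hab

end

section Ordered

variable {G : Type*} [Group G] [LinearOrder G] [MulLeftMono G] [MulRightMono G]

theorem PC.of_convex (C : Subgroup G) (hC : C.Normal)
    (hconv : ∀ x ∈ C, ∀ g, 1 ≤ g → g ≤ x → g ∈ C) : PC {g : G | 1 ≤ g ∨ g ∈ C} C := by
  refine ⟨?_, ?_, ?_, ?_⟩
  · rintro x (hx | hx) y (hy | hy)
    · exact Or.inl (one_le_mul hx hy)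
    · rcases le_total 1 (x * y) with h | h
      · exact Or.inl h
      · right
        have h1 : x ≤ y⁻¹ := by
          have := mul_le_mul_left h y⁻¹
          simpa using this
        exact C.mul_mem (hconv _ (C.inv_mem hy) x hx h1) hy
    · rcases le_total 1 (x * y) with h | h
      · exact Or.inl h
      · right
        have h1 : y ≤ x⁻¹ := by
          have := mul_le_mul_right h x⁻¹
          simpa using this
        exact C.mul_mem hx (hconv _ (C.inv_mem hx) y hy h1)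
    · exact Or.inr (C.mul_mem hx hy)
  · rintro g x (hx | hx)
    · exact Or.inl (conj_one_le g hx)
    · exact Or.inr (hC.conj_mem x hx g)
  · intro x
    rcases le_total 1 x with h | h
    · exact Or.inl (Or.inl h)
    · exact Or.inr (Or.inl (one_le_inv'.mpr h))
  · intro x
    constructor
    · rintro ⟨h1 | h1, h2 | h2⟩
      · have : x = 1 := le_antisymm (one_le_inv'.mp h2) h1
        rw [this]; exact C.one_mem
      · simpa using C.inv_mem h2
      · exact h1
      · exact h1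
    · intro hx
      exact ⟨Or.inr hx, Or.inr (C.inv_mem hx)⟩

/-- the normal convex hull of `u` -/
theorem exists_dom (u : G) : ∃ C : Subgroup G, (∃ P, PC P C) ∧ u ∈ C ∧
    ∀ x ∈ C, ∃ g : G, ∃ n : ℕ, |x|ₘ ≤ (g * |u|ₘ * g⁻¹) ^ n := by
  have hone : ∀ g : G, 1 ≤ g * |u|ₘ * g⁻¹ := fun g => conj_one_le g (one_le_mabs u)
  let C : Subgroup G :=
    { carrier := {x | ∃ g : G, ∃ n : ℕ, |x|ₘ ≤ (g * |u|ₘ * g⁻¹) ^ n}
      mul_mem' := by
        rintro x y ⟨g, n, hx⟩ ⟨h, m, hy⟩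
        rcases le_total (g * |u|ₘ * g⁻¹) (h * |u|ₘ * h⁻¹) with hle | hle
        · exact ⟨h, n + m, mabs_mul_le_pow (hx.trans (pow_le_pow_left' hle n)) hy⟩
        · exact ⟨g, n + m, mabs_mul_le_pow hx (hy.trans (pow_le_pow_left' hle m))⟩
      one_mem' := ⟨1, 0, by simp⟩
      inv_mem' := by
        rintro x ⟨g, n, hx⟩
        exact ⟨g, n, by rwa [mabs_inv]⟩ }
  have hCn : C.Normal := by
    constructor
    rintro x ⟨g, n, hx⟩ h
    refine ⟨h * g, n, ?_⟩
    rw [mabs_conj]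
    calc h * |x|ₘ * h⁻¹ ≤ h * (g * |u|ₘ * g⁻¹) ^ n * h⁻¹ := conj_le h hx
      _ = (h * g * |u|ₘ * (h * g)⁻¹) ^ n := by
        rw [← conj_pow]; congr 1; group
  refine ⟨C, ⟨_, PC.of_convex C hCn ?_⟩, ⟨1, 1, by simp⟩, fun x hx => hx⟩
  rintro x ⟨g, n, hx⟩ y hy hyx
  refine ⟨g, n, ?_⟩
  rw [mabs_of_one_le hy]
  exact hyx.trans ((le_mabs_self x).trans hx)

end Ordered

section Isol

variable {G : Type*} [Group G]

theorem Pos.trivial {V : Type*} [AddCommGroup V] {c : AddMonoid.End V}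
    (hc : Pos (1 : G →* AddMonoid.End V) c) : ∃ m : ℕ, 0 < m ∧ ∀ v, c v = m • v := by
  induction hc with
  | base g => exact ⟨1, one_pos, fun v => by simp⟩
  | add a b _ _ ha hb =>
    obtain ⟨m, hm, h1⟩ := ha
    obtain ⟨n, hn, h2⟩ := hb
    exact ⟨m + n, by omega, fun v => by rw [end_add_apply, h1, h2, add_nsmul]⟩

/-- isolator of a subgroup containing the commutator subgroup -/
theorem exists_isol (R : Subgroup G) (hR : commutator G ≤ R) :
    ∃ P C, PC P C ∧ ∀ x : G, x ∈ C ↔ ∃ m : ℕ, 0 < m ∧ x ^ m ∈ R := by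
  let V := Additive (Abelianization G)
  let cls : G → V := fun x => Additive.ofMul (Abelianization.of x)
  have cmul : ∀ x y, cls (x * y) = cls x + cls y := fun x y => by
    change Additive.ofMul (Abelianization.of (x * y)) = _
    rw [map_mul]; rfl
  have cinv : ∀ x, cls x⁻¹ = -cls x := fun x => by
    change Additive.ofMul (Abelianization.of x⁻¹) = _
    rw [map_inv]; rfl
  have cpow : ∀ x (m : ℕ), cls (x ^ m) = m • cls x := fun x m => by
    change Additive.ofMul (Abelianization.of (x ^ m)) = _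
    rw [map_pow]; rfl
  let R' : AddSubgroup V := Subgroup.toAddSubgroup (R.map Abelianization.of)
  have hR' : ∀ x, cls x ∈ R' ↔ x ∈ R := by
    intro x
    constructor
    · intro hx
      have hx' : Abelianization.of x ∈ R.map Abelianization.of := hx
      obtain ⟨r, hr, e⟩ := hx'
      have h1 : Abelianization.of (r⁻¹ * x) = 1 := by rw [map_mul, map_inv, e, inv_mul_cancel]
      have h2 : r⁻¹ * x ∈ commutator G := by
        rw [← Abelianization.ker_of]; exact h1
      have := R.mul_mem hr (hR h2)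
      rwa [mul_inv_cancel_left] at this
    · intro hx
      exact ⟨x, hx, rfl⟩
  obtain ⟨S, Sadd, -, Stot, Sker⟩ := exists_cone (φ := (1 : G →* AddMonoid.End V))
    (fun g h => rfl) R' (fun g x hx => hx)
  obtain ⟨C, hC⟩ : ∃ C : Subgroup G, PC {g : G | cls g ∈ S} C := by
    refine exists_PC ?_ ?_ ?_
    · intro x hx y hy
      change cls (x * y) ∈ S
      rw [cmul]; exact Sadd _ hx _ hy
    · intro g x hx
      change cls (g * x * g⁻¹) ∈ S
      rw [cmul, cmul, cinv, add_right_comm, add_neg_cancel, zero_add]; exact hx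
    · intro x
      change cls x ∈ S ∨ cls x⁻¹ ∈ S
      rw [cinv]; exact Stot _
  refine ⟨_, C, hC, ?_⟩
  intro x
  rw [← hC.ker x]
  change (cls x ∈ S ∧ cls x⁻¹ ∈ S) ↔ _
  rw [cinv, Sker]
  constructor
  · rintro ⟨c, hc, hcx⟩
    obtain ⟨m, hm, e⟩ := hc.trivial
    refine ⟨m, hm, ?_⟩
    rw [e, ← cpow, hR'] at hcx
    exact hcx
  · rintro ⟨m, hm, hx⟩
    obtain ⟨c, hc, e⟩ := Pos.nsmul (φ := (1 : G →* AddMonoid.End V)) m hm
    exact ⟨c, hc, by rw [e, ← cpow, hR']; exact hx⟩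

end Isol

end Q151.Ord3
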