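import Pool.Agent.Q151.Ord3.Order

/-!
Stage lemmas for `MP_b7123c_al`.
-/

open scoped commutatorElement

namespace Q151.Ord3

section Ordered

variable {G : Type*} [Group G] [LinearOrder G] [MulLeftMono G] [MulRightMono G]

/-- domination hypothesis -/
def HP (M : Subgroup G) : Prop :=
  ∀ u ∈ M, u ≠ 1 → ∀ x ∈ M, ∃ g : G, ∃ n : ℕ, |x|ₘ ≤ (g * |u|ₘ * g⁻¹) ^ n

theorem stage_aux {M B L Hs : Subgroup G} (hM : M.Normal) (hL : L.Normal)
    (hHsn : Hs.Normal) (hGM : commutator G ≤ M)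
    (hHP : HP M) (hBL : ∀ b ∈ B, ∀ l ∈ L, b * l = l * b) (hBG : B ≤ commutator G)
    (hJL : ∀ x ∈ commutator G, ∀ y ∈ commutator G, ⁅x, y⁆ ∈ L)
    (hHs : ∀ h ∈ Hs, ∀ c ∈ commutator G, ⁅h, c⁆ ∈ L)
    (b : G) (hb : b ∈ B) (h : G) (hh : h ∈ Hs) (a : G) (ha : a ∈ M) (ha1 : 1 < a) :
    ⁅⁅h, a⁆, b⁆ = 1 := by
  by_contra hu
  set x := ⁅h, a⁆ with hx
  set u := ⁅x, b⁆ with hudef
  have hxG : x ∈ commutator G := Subgroup.commutator_mem_commutator (Subgroup.mem_top _) (Subgroup.mem_top _)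
  have huG : u ∈ commutator G := Subgroup.commutator_mem_commutator (Subgroup.mem_top _) (Subgroup.mem_top _)
  have huL : u ∈ L := hJL x hxG b (hBG hb)
  obtain ⟨g, n, hg⟩ := hHP u (hGM huG) hu a ha
  rw [mabs_of_one_lt ha1, conj_pow] at hg
  -- a' = g⁻¹ a g
  set a' := g⁻¹ * a * g with ha'
  have ha'le : a' ≤ |u|ₘ ^ n := by
    have := conj_le g⁻¹ hg
    rw [inv_inv] at this
    calc a' ≤ g⁻¹ * (g * |u|ₘ ^ n * g⁻¹) * g := this
      _ = |u|ₘ ^ n := by group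
  have ha'1 : 1 < a' := by
    have := conj_one_lt g⁻¹ ha1
    rwa [inv_inv] at this
  set c := a⁻¹ * a' with hc
  have hcG : c ∈ commutator G := by
    have : c = ⁅a⁻¹, g⁻¹⁆ := by
      rw [hc, ha', commutatorElement_def]; group
    rw [this]
    exact Subgroup.commutator_mem_commutator (Subgroup.mem_top _) (Subgroup.mem_top _)
  have hx1 : x⁻¹ * ⁅h, a'⁆ ∈ L := by
    have e : x⁻¹ * ⁅h, a'⁆ = a * ⁅h, c⁆ * a⁻¹ := by
      rw [hx, hc]; simp only [commutatorElement_def]; group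
    rw [e]
    exact hL.conj_mem _ (hHs h hh c hcG) a
  have hx1G : ⁅h, a'⁆ ∈ commutator G := Subgroup.commutator_mem_commutator (Subgroup.mem_top _) (Subgroup.mem_top _)
  -- find z
  obtain ⟨z, hz1, hz2⟩ : ∃ z : G, x⁻¹ * z ∈ L ∧ |z|ₘ ≤ a' := by
    rcases le_total (h * a' * h⁻¹) a' with hle | hle
    · refine ⟨⁅h, a'⁆, hx1, ?_⟩
      rw [mabs_le']
      constructor
      · have h1 : ⁅h, a'⁆ ≤ 1 := by
          rw [commutatorElement_def]
          exact mul_inv_le_one_iff_le.mpr hle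
        exact h1.trans ha'1.le
      · have h2 : ⁅h, a'⁆⁻¹ = a' * (h * a' * h⁻¹)⁻¹ := by
          rw [commutatorElement_def]; group
        rw [h2]
        exact mul_le_of_le_one_right' (inv_le_one'.mpr (conj_one_lt h ha'1).le)
    · refine ⟨a' * (h⁻¹ * a' * h)⁻¹, ?_, ?_⟩
      · have e : x⁻¹ * (a' * (h⁻¹ * a' * h)⁻¹) = (x⁻¹ * ⁅h, a'⁆) * (⁅h⁻¹, ⁅h, a'⁆⁻¹⁆)⁻¹ := by
          simp only [commutatorElement_def]; group
        rw [e]
        exact L.mul_mem hx1 (L.inv_mem (hHs _ (Hs.inv_mem hh) _ ((commutator G).inv_mem hx1G)))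
      · have hy : h⁻¹ * a' * h ≤ a' := by
          have := conj_le h⁻¹ hle
          rw [inv_inv] at this
          calc h⁻¹ * a' * h ≤ h⁻¹ * (h * a' * h⁻¹) * h := this
            _ = a' := by group
        have hy1 : 1 < h⁻¹ * a' * h := by
          have := conj_one_lt h⁻¹ ha'1
          rwa [inv_inv] at this
        rw [mabs_of_one_le (by rw [← div_eq_mul_inv]; exact one_le_div'.mpr hy)]
        exact mul_le_of_le_one_right' (inv_le_one'.mpr hy1.le)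
  -- ⁅z, b⁆ = u
  have hzb : u = z * b * z⁻¹ * b⁻¹ := by
    have hl := hBL b hb _ hz1
    have hz3 : z = x * (x⁻¹ * z) := by group
    have e : (x⁻¹ * z) * b * (x⁻¹ * z)⁻¹ = b := by rw [← hl]; group
    calc u = x * b * x⁻¹ * b⁻¹ := by rw [hudef, commutatorElement_def]
      _ = x * ((x⁻¹ * z) * b * (x⁻¹ * z)⁻¹) * x⁻¹ * b⁻¹ := by rw [e]
      _ = z * b * z⁻¹ * b⁻¹ := by group
  have hub : u * b = b * u := (hBL b hb u huL).symm
  have := L1 z b u hzb hub hu n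
  exact absurd (this.trans_le (hz2.trans ha'le)) (lt_irrefl _)

theorem stage {M B L Hs : Subgroup G} (hM : M.Normal) (hB : B.Normal) (hL : L.Normal)
    (hHsn : Hs.Normal) (hGM : commutator G ≤ M)
    (hHP : HP M) (hBL : ∀ b ∈ B, ∀ l ∈ L, b * l = l * b) (hBG : B ≤ commutator G)
    (hJL : ∀ x ∈ commutator G, ∀ y ∈ commutator G, ⁅x, y⁆ ∈ L)
    (hHs : ∀ h ∈ Hs, ∀ c ∈ commutator G, ⁅h, c⁆ ∈ L)
    (b : G) (hb : b ∈ B) (h : G) (hh : h ∈ Hs) (a : G) (ha : a ∈ M) :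
    b * ⁅h, a⁆ = ⁅h, a⁆ * b := by
  rcases lt_trichotomy 1 a with h1 | h1 | h1
  · have := stage_aux hM hL hHsn hGM hHP hBL hBG hJL hHs b hb h hh a ha h1
    rw [commutatorElement_eq_one_iff_mul_comm] at this
    exact this.symm
  · rw [← h1]; simp
  · have hb' : a⁻¹ * b * a ∈ B := by
      have := hB.conj_mem b hb a⁻¹
      rwa [inv_inv] at this
    have := stage_aux hM hL hHsn hGM hHP hBL hBG hJL hHs (a⁻¹ * b * a) hb' h hh a⁻¹ (M.inv_mem ha)
      (one_lt_inv'.mpr h1)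
    rw [commutatorElement_eq_one_iff_mul_comm] at this
    -- conj by a
    have e2 : a * ⁅h, a⁻¹⁆ * a⁻¹ = ⁅h, a⁆⁻¹ := by
      simp only [commutatorElement_def]; group
    have e3 : ⁅h, a⁆⁻¹ * b = b * ⁅h, a⁆⁻¹ := by
      calc ⁅h, a⁆⁻¹ * b = a * (⁅h, a⁻¹⁆ * (a⁻¹ * b * a)) * a⁻¹ := by rw [← e2]; group
        _ = a * ((a⁻¹ * b * a) * ⁅h, a⁻¹⁆) * a⁻¹ := by rw [this]
        _ = b * ⁅h, a⁆⁻¹ := by rw [← e2]; group
    calc b * ⁅h, a⁆ = ⁅h, a⁆ * (⁅h, a⁆⁻¹ * b) * ⁅h, a⁆ := by group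
      _ = ⁅h, a⁆ * (b * ⁅h, a⁆⁻¹) * ⁅h, a⁆ := by rw [e3]
      _ = ⁅h, a⁆ * b := by group

/-- commuting with all commutators of generators means commuting with the commutator subgroup -/
theorem cent_commutator {A C : Subgroup G} {b : G} (h : ∀ x ∈ A, ∀ y ∈ C, b * ⁅x, y⁆ = ⁅x, y⁆ * b) :
    ∀ l ∈ ⁅A, C⁆, b * l = l * b := by
  intro l hl
  have hle : ⁅A, C⁆ ≤ Subgroup.centralizer {b} := by
    rw [Subgroup.commutator_le]
    intro x hx y hy
    rw [Subgroup.mem_centralizer_singleton_iff]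
    exact (h x hx y hy).symm
  have := hle hl
  rw [Subgroup.mem_centralizer_singleton_iff] at this
  exact this.symm

/-- `B` normal, `B ≤ G'`, centralizing `G''`, centralizes `[M,M]`. -/
theorem cent_MM {M B : Subgroup G} (hM : M.Normal) (hB : B.Normal) (hGM : commutator G ≤ M)
    (hHP : HP M) (hBG : B ≤ commutator G)
    (hBJ : ∀ b ∈ B, ∀ l ∈ ⁅commutator G, commutator G⁆, b * l = l * b) :
    ∀ b ∈ B, ∀ l ∈ ⁅M, M⁆, b * l = l * b := by
  have h1 : ∀ b ∈ B, ∀ l ∈ ⁅M, commutator G⁆, b * l = l * b := by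
    intro b hb
    rw [Subgroup.commutator_comm]
    refine cent_commutator ?_
    intro h hh a ha
    have hJ : (⁅commutator G, commutator G⁆ : Subgroup G).Normal := inferInstance
    exact stage hM hB hJ inferInstance hGM hHP hBJ hBG
      (fun x hx y hy => Subgroup.commutator_mem_commutator hx hy)
      (fun x hx y hy => Subgroup.commutator_mem_commutator hx hy) b hb h hh a ha
  intro b hb
  refine cent_commutator ?_
  intro h hh a ha
  have hJ : (⁅M, commutator G⁆ : Subgroup G).Normal := inferInstance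
  exact stage hM hB hJ hM hGM hHP h1 hBG
      (fun x hx y hy => Subgroup.commutator_mem_commutator (hGM hx) hy)
      (fun x hx y hy => Subgroup.commutator_mem_commutator hx hy) b hb h hh a ha

/-- powers: `|[h,b]| ≤ |[h^m,b]|`. -/
theorem mabs_comm_le (h b : G) (m : ℕ) (hm : 0 < m) : |⁅h, b⁆|ₘ ≤ |⁅h ^ m, b⁆|ₘ := by
  have hrec : ∀ k : ℕ, ⁅h ^ (k + 1), b⁆ = (h * ⁅h ^ k, b⁆ * h⁻¹) * ⁅h, b⁆ := by
    intro k
    simp only [commutatorElement_def, pow_succ']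
    group
  rcases le_total 1 ⁅h, b⁆ with hu | hu
  · have hall : ∀ k : ℕ, 1 ≤ ⁅h ^ k, b⁆ := by
      intro k
      induction k with
      | zero => simp
      | succ k ih =>
        rw [hrec]
        exact one_le_mul (conj_one_le h ih) hu
    obtain ⟨k, rfl⟩ : ∃ k, m = k + 1 := ⟨m - 1, by omega⟩
    rw [mabs_of_one_le hu, mabs_of_one_le (hall _), hrec]
    exact le_mul_of_one_le_left' (conj_one_le h (hall k))
  · have hall : ∀ k : ℕ, ⁅h ^ k, b⁆ ≤ 1 := by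
      intro k
      induction k with
      | zero => simp
      | succ k ih =>
        rw [hrec]
        exact mul_le_one' (conj_le_one h ih) hu
    obtain ⟨k, rfl⟩ : ∃ k, m = k + 1 := ⟨m - 1, by omega⟩
    rw [mabs_of_le_one hu, mabs_of_le_one (hall _), hrec]
    rw [inv_le_inv_iff]
    exact mul_le_of_le_one_left' (conj_le_one h (hall k))

/-- Stage B -/
theorem stageB {M B : Subgroup G} (hM : M.Normal) (hB : B.Normal) (hGM : commutator G ≤ M)
    (hHP : HP M) (hBG : B ≤ commutator G)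
    (hBJ : ∀ b ∈ B, ∀ l ∈ ⁅commutator G, commutator G⁆, b * l = l * b)
    (hK : ∀ u ∈ M, u ≠ 1 → ∀ h ∈ M, ∃ m : ℕ, 0 < m ∧ ∃ k ∈ ⁅M, M⁆, ∃ n : ℕ, |h ^ m * k|ₘ ≤ |u|ₘ ^ n) :
    ∀ b ∈ B, ∀ h ∈ commutator G, b * h = h * b := by
  intro b hb h hh
  by_contra hne
  have hu : ⁅h, b⁆ ≠ 1 := by
    intro h0
    rw [commutatorElement_eq_one_iff_mul_comm] at h0
    exact hne h0.symm
  have huG : ⁅h, b⁆ ∈ commutator G :=
    Subgroup.commutator_mem_commutator (Subgroup.mem_top _) (Subgroup.mem_top _)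
  obtain ⟨m, hm, k, hk, n, hn⟩ := hK ⁅h, b⁆ (hGM huG) hu h (hGM hh)
  have hkb := cent_MM hM hB hGM hHP hBG hBJ b hb k hk
  have hle := mabs_comm_le h b m hm
  have hw1 : ⁅h ^ m, b⁆ ≠ 1 := by
    intro h0
    rw [h0, mabs_one] at hle
    have h2 : 1 < |⁅h, b⁆|ₘ := one_lt_mabs.mpr hu
    exact absurd (h2.trans_le hle) (lt_irrefl _)
  have hwz : ⁅h ^ m, b⁆ = (h ^ m * k) * b * (h ^ m * k)⁻¹ * b⁻¹ := by
    have e : k * b * k⁻¹ = b := by rw [← hkb]; group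
    calc ⁅h ^ m, b⁆ = h ^ m * b * (h ^ m)⁻¹ * b⁻¹ := by rw [commutatorElement_def]
      _ = h ^ m * (k * b * k⁻¹) * (h ^ m)⁻¹ * b⁻¹ := by rw [e]
      _ = _ := by group
  have hwJ : ⁅h ^ m, b⁆ ∈ ⁅commutator G, commutator G⁆ :=
    Subgroup.commutator_mem_commutator ((commutator G).pow_mem hh m) (hBG hb)
  have hcb : ⁅h ^ m, b⁆ * b = b * ⁅h ^ m, b⁆ := (hBJ b hb _ hwJ).symm
  have h3 := L1 (h ^ m * k) b _ hwz hcb hw1 n
  have h4 : |⁅h, b⁆|ₘ ^ n ≤ |⁅h ^ m, b⁆|ₘ ^ n := pow_le_pow_left' hle n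
  exact absurd ((h3.trans_le hn).trans_le h4) (lt_irrefl _)

end Ordered

end Q151.Ord3
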